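import Pool.Agent.Helper30_Simp.Stmts

/-!
# MODULE HEN: Hensel's lemma for families of power series with given orders
-/

set_option autoImplicit false
set_option linter.unusedVariables false
set_option linter.unusedSectionVars false

namespace Pool.Agent.Helper30_Simp.H52

open PowerSeries Finset Pool.Agent.Helper6_Mono

section

variable {k : Type} [Field k] {σ : Type} [Fintype σ] {S : Type} [CommRing S] [Algebra k S]

/-- orders and leading coefficients -/
def Mem (u : σ → ℕ) (x : σ → S) (γ : σ → S⟦X⟧) : Prop :=
  ∀ i, (∀ c < u i, coeff c (γ i) = 0) ∧ coeff (u i) (γ i) = x i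

theorem Mem.rel {u : σ → ℕ} {x : σ → S} {γ : σ → S⟦X⟧} (h : Mem u x γ) (i : σ) :
    Rel 1 1 (u i) (γ i) (x i) := by
  refine ⟨fun c hc => (h i).1 c (by omega), fun c hc => ?_, fun hc => ?_⟩
  · have : c = u i := by omega
    rw [this, (h i).2]
  · exact absurd (by ring) (hc (u i))

theorem wh_mono (u : σ → ℕ) (α : σ →₀ ℕ) (a : k) :
    MvPolynomial.IsWeightedHomogeneous u (MvPolynomial.monomial α a) (dot u α) := by
  refine MvPolynomial.isWeightedHomogeneous_monomial u α a ?_
  rw [Finsupp.weight_apply, Finsupp.sum_fintype _ _ (fun i => by rw [zero_smul]), dot]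
  refine Finset.sum_congr rfl fun i _ => ?_
  rw [smul_eq_mul, mul_comm]
  rfl

/-- low coefficients of a monomial -/
theorem mono_low {u : σ → ℕ} {x : σ → S} {γ : σ → S⟦X⟧} (h : Mem u x γ) (α : σ →₀ ℕ) (a : k) :
    (∀ c < dot u α, coeff c (MvPolynomial.aeval γ (MvPolynomial.monomial α a)) = 0) ∧
      coeff (dot u α) (MvPolynomial.aeval γ (MvPolynomial.monomial α a))
        = MvPolynomial.aeval x (MvPolynomial.monomial α a) := by
  have h1 := Rel.aeval (a := 1) (D := 1) one_pos (wh_mono u α a) (fun i => h.rel i)
  exact ⟨fun c hc => h1.1 c (by omega), h1.2.1 _ (by ring)⟩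

variable {f : MvPolynomial σ k} {I : Finset (σ →₀ ℕ)} {J : Finset σ} {u : σ → ℕ} {N : ℕ}

theorem aeval_f {A : Type} [CommRing A] [Algebra k A] (f : MvPolynomial σ k) (γ : σ → A) :
    MvPolynomial.aeval γ f
      = ∑ α ∈ f.support, MvPolynomial.aeval γ (MvPolynomial.monomial α (f.coeff α)) := by
  conv_lhs => rw [← MvPolynomial.support_sum_monomial_coeff f]
  rw [map_sum]

theorem f_low (h : CellS f.support I J u N) {x : σ → S} {γ : σ → S⟦X⟧} (hm : Mem u x γ) :
    (∀ c < N, coeff c (MvPolynomial.aeval γ f) = 0) ∧
      coeff N (MvPolynomial.aeval γ f) = MvPolynomial.aeval x (part f I) := by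
  classical
  have hle : ∀ α ∈ f.support, N ≤ dot u α := by
    intro α hα
    by_cases hI : α ∈ I
    · exact (h.eq α hI).ge
    · exact (h.lt α hα hI).le
  refine ⟨fun c hc => ?_, ?_⟩
  · rw [aeval_f f γ, map_sum]
    refine Finset.sum_eq_zero fun α hα => ?_
    exact (mono_low hm α _).1 c (lt_of_lt_of_le hc (hle α hα))
  · rw [aeval_f f γ, map_sum, part, map_sum, ← Finset.sum_subset h.sub]
    · refine Finset.sum_congr rfl fun α hα => ?_
      have := (mono_low hm α (f.coeff α)).2
      rw [h.eq α hα] at this
      exact this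
    · intro α hα hI
      exact (mono_low hm α _).1 N (h.lt α hα hI)

theorem uj_le [Nontrivial S] (h : CellS f.support I J u N) {x : σ → S} {j : σ}
    (hv : IsUnit (MvPolynomial.aeval x (MvPolynomial.pderiv j (part f I)))) : u j ≤ N := by
  classical
  by_contra hlt
  push Not at hlt
  have h0 : MvPolynomial.pderiv j (part f I) = 0 := by
    rw [part, map_sum]
    refine Finset.sum_eq_zero fun α hα => ?_
    rw [MvPolynomial.pderiv_monomial]
    have h1 : α j = 0 := by
      by_contra h2
      have h3 : u j ≤ dot u α := by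
        rw [dot]
        refine le_trans ?_ (Finset.single_le_sum (f := fun i => u i * ((α i : ℕ) : ℕ))
          (fun i _ => Nat.zero_le _) (Finset.mem_univ j))
        exact Nat.le_mul_of_pos_right _ (Nat.pos_of_ne_zero h2)
      rw [h.eq α hα] at h3
      omega
    rw [h1, Nat.cast_zero, mul_zero, MvPolynomial.monomial_zero]
  rw [h0, map_zero] at hv
  exact not_isUnit_zero hv

theorem tri_f [DecidableEq σ] (h : CellS f.support I J u N) {x : σ → S} {γ₀ : σ → S⟦X⟧}
    (hm : Mem u x γ₀) {j : σ} (hj : u j ≤ N) :
    Tri (fun y => MvPolynomial.aeval (Function.update γ₀ j y) f) (u j + 1) (N - u j)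
      (MvPolynomial.aeval x (MvPolynomial.pderiv j (part f I))) (γ₀ j) := by
  have hle : ∀ α ∈ f.support, N ≤ dot u α := by
    intro α hα
    by_cases hI : α ∈ I
    · exact (h.eq α hI).ge
    · exact (h.lt α hα hI).le
  have ht : ∀ α ∈ f.support, Tri (fun y => MvPolynomial.aeval (Function.update γ₀ j y)
      (MvPolynomial.monomial α (f.coeff α))) (u j + 1) (dot u α - u j)
      (MvPolynomial.aeval x (MvPolynomial.pderiv j (MvPolynomial.monomial α (f.coeff α))))
      (γ₀ j) := by
    intro α hα
    have := tri_block (a := 1) (D := 1) one_pos (wh_mono u α (f.coeff α)) j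
      (hj.trans (hle α hα)) (one_dvd _) γ₀ x (fun i => hm.rel i)
    rw [Nat.div_one, Nat.div_one, one_mul, one_mul] at this
    exact this
  intro n y y' hn hy hyy'
  refine ⟨fun c hc => ?_, ?_⟩
  · show coeff c (MvPolynomial.aeval (Function.update γ₀ j y) f)
      = coeff c (MvPolynomial.aeval (Function.update γ₀ j y') f)
    rw [aeval_f f, aeval_f f (Function.update γ₀ j y'), map_sum, map_sum]
    refine Finset.sum_congr rfl fun α hα => ?_
    exact (ht α hα n y y' hn hy hyy').1 c (by have := hle α hα; omega)
  · show coeff (n + (N - u j)) (MvPolynomial.aeval (Function.update γ₀ j y') f)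
      - coeff (n + (N - u j)) (MvPolynomial.aeval (Function.update γ₀ j y) f) = _
    rw [aeval_f f, aeval_f f (Function.update γ₀ j y), map_sum, map_sum, ← Finset.sum_sub_distrib,
      part, map_sum, map_sum, Finset.mul_sum, ← Finset.sum_subset h.sub]
    · refine Finset.sum_congr rfl fun α hα => ?_
      have := (ht α (h.sub hα) n y y' hn hy hyy').2
      rw [h.eq α hα] at this
      exact this
    · intro α hα hI
      have := (ht α hα n y y' hn hy hyy').1 (n + (N - u j)) (by have := h.lt α hα hI; omega)
      rw [sub_eq_zero]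
      exact this.symm

end

theorem hen : HenStmt := by
  classical
  intro k _ σ _ f I J u N m h hN S _ _ j x hx hg hv δ
  rcases subsingleton_or_nontrivial S with hS | hS
  · have hS' : Subsingleton (S⟦X⟧) := ⟨fun a b => by ext n; exact Subsingleton.elim _ _⟩
    exact ⟨fun _ => 0, ⟨fun _ _ _ => Subsingleton.elim _ _, fun _ _ => Subsingleton.elim _ _,
      fun _ _ => Subsingleton.elim _ _, fun _ _ => Subsingleton.elim _ _⟩,
      fun γ _ => Subsingleton.elim _ _⟩
  have hj : u j ≤ N := uj_le h hv
  -- membership
  have hmem : ∀ γ : σ → S⟦X⟧, (∀ i c, (i, c) ∉ DU u m → coeff c (γ i) = 0) →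
      (∀ i, u i ≤ m → coeff (u i) (γ i) = x i) → Mem u x γ := by
    intro γ h1 h2 i
    refine ⟨fun c hc => h1 i c (fun hh => ?_), ?_⟩
    · exact absurd hh.1 (not_le.2 hc)
    · rcases Nat.lt_or_ge m (u i) with h3 | h3
      · rw [hx i h3]
        exact h1 i _ (fun hh => absurd hh.2 (not_le.2 h3))
      · exact h2 i h3
  -- existence
  let γ₀ : σ → S⟦X⟧ := fun i => PowerSeries.mk fun c =>
    if c = u i then x i else if (i, c) ∈ DRj u m N j then coeff c (δ i) else 0
  have hγ₀ : ∀ i c, coeff c (γ₀ i) = if c = u i then x i else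
      if (i, c) ∈ DRj u m N j then coeff c (δ i) else 0 := fun i c => coeff_mk _ _
  have hγ₀D : ∀ i c, (i, c) ∉ DU u m → coeff c (γ₀ i) = 0 := by
    intro i c hc
    rw [hγ₀]
    split_ifs with h1 h2
    · refine hx i ?_
      by_contra h3
      exact hc ⟨h1.ge, by rw [h1]; exact not_lt.1 h3⟩
    · exact absurd ⟨h2.1.le, h2.2.1⟩ hc
    · rfl
  have hγ₀x : ∀ i, coeff (u i) (γ₀ i) = x i := fun i => by rw [hγ₀, if_pos rfl]
  have hm₀ : Mem u x γ₀ := hmem γ₀ hγ₀D fun i _ => hγ₀x i
  have hT := tri_f h hm₀ hj
  have hlow := f_low h hm₀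
  obtain ⟨y, hy1, hy2, hy3⟩ := hT.exists hv (h := (X : S⟦X⟧) ^ m)
    (q := m + 1 + u j - N) (fun c hc => by
      show coeff c (MvPolynomial.aeval (Function.update γ₀ j (γ₀ j)) f) = _
      rw [Function.update_eq_self, coeff_X_pow, if_neg (by omega)]
      rcases Nat.lt_or_ge c N with h1 | h1
      · exact hlow.1 c h1
      · have : c = N := by omega
        rw [this, hlow.2, hg]) (by omega)
  have hyj : ∀ c, (j, c) ∉ DU u m → coeff c y = 0 := by
    intro c hc
    rcases Nat.lt_or_ge c (u j + 1) with h1 | h1
    · rw [hy1 c h1, hγ₀D j c hc]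
    · have h2 : m < c := by
        by_contra h3
        exact hc ⟨by show u j ≤ c; omega, not_lt.1 h3⟩
      rw [hy2 c (by omega), hγ₀D j c hc]
  refine ⟨Function.update γ₀ j y, ⟨fun i c hc => ?_, fun i hi => ?_, fun c hc => ?_,
    fun p hp => ?_⟩, ?_⟩
  · by_cases hi : i = j
    · subst hi
      rw [Function.update_self]
      exact hyj c hc
    · rw [Function.update_of_ne hi]
      exact hγ₀D i c hc
  · by_cases hij : i = j
    · subst hij
      rw [Function.update_self, hy1 _ (by omega), hγ₀x]
    · rw [Function.update_of_ne hij, hγ₀x]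
  · have := hy3 c (by omega)
    rw [coeff_X_pow] at this
    exact this
  · obtain ⟨i, c⟩ := p
    have h1 : coeff c (γ₀ i) = coeff c (δ i) := by
      rw [hγ₀, if_neg (by have := hp.1; simp only at this; omega), if_pos hp]
    by_cases hi : i = j
    · subst hi
      show coeff c (Function.update γ₀ i y i) = coeff c (δ i)
      rw [Function.update_self, hy2 c (by have := hp.2.2 rfl; simp only at this; omega), h1]
    · show coeff c (Function.update γ₀ j y i) = coeff c (δ i)
      rw [Function.update_of_ne hi, h1]
  -- uniqueness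
  · set γ' := Function.update γ₀ j y with hγ'
    have hγ'P : (∀ i c, (i, c) ∉ DU u m → coeff c (γ' i) = 0) ∧
      (∀ i, u i ≤ m → coeff (u i) (γ' i) = x i) ∧
      (∀ c ≤ m, coeff c (MvPolynomial.aeval γ' f) = if c = m then 1 else 0) ∧
      ∀ p ∈ DRj u m N j, coeff p.2 (γ' p.1) = coeff p.2 (δ p.1) := by
      refine ⟨fun i c hc => ?_, fun i hi => ?_, fun c hc => ?_, fun p hp => ?_⟩
      · by_cases hi : i = j
        · subst hi
          rw [hγ', Function.update_self]
          exact hyj c hc
        · rw [hγ', Function.update_of_ne hi]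
          exact hγ₀D i c hc
      · by_cases hij : i = j
        · subst hij
          rw [hγ', Function.update_self, hy1 _ (by omega), hγ₀x]
        · rw [hγ', Function.update_of_ne hij, hγ₀x]
      · have := hy3 c (by omega)
        rw [coeff_X_pow] at this
        exact this
      · obtain ⟨i, c⟩ := p
        have h1 : coeff c (γ₀ i) = coeff c (δ i) := by
          rw [hγ₀, if_neg (by have := hp.1; simp only at this; omega), if_pos hp]
        by_cases hi : i = j
        · subst hi
          show coeff c (γ' i) = coeff c (δ i)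
          rw [hγ', Function.update_self,
            hy2 c (by have := hp.2.2 rfl; simp only at this; omega), h1]
        · show coeff c (γ' i) = coeff c (δ i)
          rw [hγ', Function.update_of_ne hi, h1]
    rintro γ ⟨g1, g2, g3, g4⟩
    obtain ⟨e1, e2, e3, e4⟩ := hγ'P
    have hmγ := hmem γ g1 g2
    have hne : ∀ i c, (i = j → m + 1 + u j ≤ c + N) → coeff c (γ i) = coeff c (γ' i) := by
      intro i c hi
      by_cases hc : (i, c) ∈ DU u m
      · rcases Nat.eq_or_lt_of_le hc.1 with h1 | h1
        · have h2 : u i ≤ m := by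
            have := hc.2
            simp only at this h1
            omega
          have h3 : c = u i := by
            simp only at h1
            omega
          rw [h3, g2 i h2, e2 i h2]
        · have hp : (i, c) ∈ DRj u m N j := ⟨h1, hc.2, fun hij => by
            have := hi hij
            show m + u j < c + N
            omega⟩
          have h5 := g4 (i, c) hp
          have h6 := e4 (i, c) hp
          simp only at h5 h6
          rw [h5, h6]
      · rw [g1 i c hc, e1 i c hc]
    have hlowj : ∀ c < u j + 1, coeff c (γ j) = coeff c (γ' j) := by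
      intro c hc
      rcases Nat.lt_or_ge c (u j) with h1 | h1
      · rw [g1 j c (fun hh => by have := hh.1; simp only at this; omega),
          e1 j c (fun hh => by have := hh.1; simp only at this; omega)]
      · have : c = u j := by omega
        rw [this, g2 j (by omega), e2 j (by omega)]
    have hnei : ∀ i, i ≠ j → γ i = γ' i := fun i hi => by
      ext c
      exact hne i c fun h' => absurd h' hi
    have hT' := tri_f h hmγ hj
    have hupd : Function.update γ j (γ' j) = γ' := by
      funext i
      by_cases hi : i = j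
      · subst hi; rw [Function.update_self]
      · rw [Function.update_of_ne hi, hnei i hi]
    have hjj : γ j = γ' j := by
      refine hT'.unique hv (q := m + 1 + u j - N) (fun c _ => rfl)
        (fun c hc => (hlowj c hc).symm) (fun c hc => hne j c fun _ => by omega)
        (fun c hc => ?_)
      show coeff c (MvPolynomial.aeval (Function.update γ j (γ j)) f)
          = coeff c (MvPolynomial.aeval (Function.update γ j (γ' j)) f)
      rw [Function.update_eq_self, hupd, g3 c (by omega), e3 c (by omega)]
    funext i
    by_cases hi : i = j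
    · rw [hi, hjj]
    · exact hnei i hi

end Pool.Agent.Helper30_Simp.H52
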