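import Pool.Agent.Helper30_Simp.Stmts

/-!
# MODULE VCNT: properties of the number of lattice points
-/

set_option autoImplicit false
set_option linter.unusedVariables false
set_option linter.unusedSectionVars false

namespace Pool.Agent.Helper30_Simp.H52

open Finset Pool.Agent.Helper6_Mono

section

variable {P W : Type} [Fintype P] [Fintype W]

/-- compactness -/
theorem exists_delta (lam : P → W → ℤ)
    (hpt : ∀ c : P → ℝ, (∀ i, 0 ≤ c i) → (∀ ρ, 0 ≤ ∑ i, c i * (lam i ρ : ℝ)) → c = 0) :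
    ∃ δ : ℝ, 0 < δ ∧ ∀ c : P → ℝ, (∀ i, 0 ≤ c i) → c ≠ 0 →
      ∃ ρ, ∑ i, c i * (lam i ρ : ℝ) ≤ - δ * ∑ i, c i := by
  -- first on the simplex
  have key : ∃ δ : ℝ, 0 < δ ∧ ∀ c ∈ stdSimplex ℝ P, ∃ ρ, ∑ i, c i * (lam i ρ : ℝ) ≤ - δ := by
    by_contra hcon
    push Not at hcon
    have h1 : ∀ n : ℕ, ∃ c ∈ stdSimplex ℝ P, ∀ ρ, - (1 / ((n : ℝ) + 1)) < ∑ i, c i * (lam i ρ : ℝ) :=
      fun n => hcon _ (by positivity)
    choose c hc1 hc2 using h1
    obtain ⟨a, ha, φ, hφ, hlim⟩ := (isCompact_stdSimplex ℝ P).tendsto_subseq hc1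
    have h0 : a = 0 := by
      refine hpt a (fun i => ha.1 i) fun ρ => ?_
      have ht : Filter.Tendsto (fun n => ∑ i, c (φ n) i * (lam i ρ : ℝ)) Filter.atTop
          (nhds (∑ i, a i * (lam i ρ : ℝ))) := by
        refine tendsto_finsetSum _ fun i _ => ?_
        exact ((tendsto_pi_nhds.1 hlim) i).mul_const _
      have ht2 : Filter.Tendsto (fun n => - (1 / ((φ n : ℝ) + 1))) Filter.atTop (nhds 0) := by
        have := (tendsto_one_div_add_atTop_nhds_zero_nat (𝕜 := ℝ)).comp hφ.tendsto_atTop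
        simpa using this.neg
      exact le_of_tendsto_of_tendsto' ht2 ht (fun n => (hc2 (φ n) ρ).le)
    have h2 := ha.2
    rw [h0] at h2
    simp at h2
  obtain ⟨δ, hδ, h⟩ := key
  refine ⟨δ, hδ, fun c hc hne => ?_⟩
  have hs : 0 < ∑ i, c i := by
    obtain ⟨i, hi⟩ : ∃ i, c i ≠ 0 := by
      by_contra hh
      push Not at hh
      exact hne (funext hh)
    exact Finset.sum_pos' (fun i _ => hc i) ⟨i, Finset.mem_univ i, lt_of_le_of_ne (hc i) hi.symm⟩
  obtain ⟨ρ, hρ⟩ := h (fun i => c i / ∑ i, c i) ⟨fun i => div_nonneg (hc i) hs.le, by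
    rw [← Finset.sum_div, div_self hs.ne']⟩
  refine ⟨ρ, ?_⟩
  have h3 : ∑ i, c i / (∑ i, c i) * (lam i ρ : ℝ) = (∑ i, c i * (lam i ρ : ℝ)) / ∑ i, c i := by
    rw [Finset.sum_div]
    exact Finset.sum_congr rfl fun i _ => by ring
  rw [h3, div_le_iff₀ hs] at hρ
  exact hρ

/-- the sets of lattice points -/
def QS (lam : P → W → ℤ) (D : Finset P) (T : Finset W) (h : W → ℤ) : Set (P → ℕ) :=
  {c | (∀ i, i ∉ D → c i = 0) ∧ ∀ ρ, (ρ ∈ T → h ρ + ∑ i, (c i : ℤ) * lam i ρ = -1) ∧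
    (ρ ∉ T → 0 ≤ h ρ + ∑ i, (c i : ℤ) * lam i ρ)}

variable {lam : P → W → ℤ} {δ : ℝ}

theorem sum_le (hδ : 0 < δ) (hd : ∀ c : P → ℝ, (∀ i, 0 ≤ c i) → c ≠ 0 →
      ∃ ρ, ∑ i, c i * (lam i ρ : ℝ) ≤ - δ * ∑ i, c i) {e : ℝ} (he : 0 ≤ e) {h : W → ℤ} {c : P → ℕ}
    (hc : ∀ ρ, - e ≤ (h ρ : ℝ) + ∑ i, (c i : ℝ) * (lam i ρ : ℝ)) :
    ∑ i, (c i : ℝ) ≤ (∑ ρ, |(h ρ : ℝ)| + e) / δ := by
  rw [le_div_iff₀ hδ]
  by_cases h0 : (fun i => (c i : ℝ)) = 0
  · have h1 : ∀ i, (c i : ℝ) = 0 := fun i => congrFun h0 i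
    simp only [h1]
    have : 0 ≤ ∑ ρ, |(h ρ : ℝ)| := Finset.sum_nonneg fun _ _ => abs_nonneg _
    simp
    linarith
  · obtain ⟨ρ, hρ⟩ := hd _ (fun i => Nat.cast_nonneg (c i)) h0
    have h1 := hc ρ
    have h2 : |(h ρ : ℝ)| ≤ ∑ ρ, |(h ρ : ℝ)| :=
      Finset.single_le_sum (f := fun ρ => |(h ρ : ℝ)|) (fun _ _ => abs_nonneg _) (Finset.mem_univ ρ)
    have h3 := le_abs_self (h ρ : ℝ)
    nlinarith

theorem QS_ge {D : Finset P} {T : Finset W} {h : W → ℤ} {c : P → ℕ} (hc : c ∈ QS lam D T h)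
    (ρ : W) : - (1 : ℝ) ≤ (h ρ : ℝ) + ∑ i, (c i : ℝ) * (lam i ρ : ℝ) := by
  have h1 : -1 ≤ h ρ + ∑ i, (c i : ℤ) * lam i ρ := by
    by_cases hρ : ρ ∈ T
    · exact ((hc.2 ρ).1 hρ).ge
    · have := (hc.2 ρ).2 hρ
      omega
  exact_mod_cast h1

theorem QS_sub (hδ : 0 < δ) (hd : ∀ c : P → ℝ, (∀ i, 0 ≤ c i) → c ≠ 0 →
      ∃ ρ, ∑ i, c i * (lam i ρ : ℝ) ≤ - δ * ∑ i, c i) {e : ℝ} (he : 0 ≤ e) {h : W → ℤ} {c : P → ℕ}
    (hc : ∀ ρ, - e ≤ (h ρ : ℝ) + ∑ i, (c i : ℝ) * (lam i ρ : ℝ)) (i : P) :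
    c i ≤ ⌊(∑ ρ, |(h ρ : ℝ)| + e) / δ⌋₊ := by
  refine Nat.le_floor ?_
  refine le_trans ?_ (sum_le hδ hd he hc)
  exact Finset.single_le_sum (f := fun i => (c i : ℝ)) (fun _ _ => Nat.cast_nonneg _)
    (Finset.mem_univ i)

theorem box_finite (B : ℕ) : {c : P → ℕ | ∀ i, c i ≤ B}.Finite := by
  exact Set.Finite.pi' fun _ => Set.finite_Iic B

theorem QS_finite (hδ : 0 < δ) (hd : ∀ c : P → ℝ, (∀ i, 0 ≤ c i) → c ≠ 0 →
      ∃ ρ, ∑ i, c i * (lam i ρ : ℝ) ≤ - δ * ∑ i, c i) (D : Finset P) (T : Finset W) (h : W → ℤ) :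
    (QS lam D T h).Finite :=
  (box_finite _).subset fun c hc => QS_sub hδ hd zero_le_one (fun ρ => QS_ge hc ρ)

theorem vc_eq (D : Finset P) (h : W → ℤ) : vc lam D h = ((QS lam D ∅ h).ncard : ℂ) := by
  unfold vc
  rw [← Nat.card_coe_set_eq]
  congr 1
  refine Nat.card_congr (Equiv.subtypeEquivRight fun c => ?_)
  simp [QS]

theorem vc_bound (hδ : 0 < δ) (hd : ∀ c : P → ℝ, (∀ i, 0 ≤ c i) → c ≠ 0 →
      ∃ ρ, ∑ i, c i * (lam i ρ : ℝ) ≤ - δ * ∑ i, c i) (D : Finset P) (h : W → ℤ) :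
    ‖vc lam D h‖ ≤ (1 + 1 / δ) ^ Fintype.card P * (1 + ∑ ρ, |(h ρ : ℝ)|) ^ Fintype.card P := by
  classical
  set H : ℝ := ∑ ρ, |(h ρ : ℝ)| with hH
  have hH0 : 0 ≤ H := Finset.sum_nonneg fun _ _ => abs_nonneg _
  unfold vc
  rw [Complex.norm_natCast, ← mul_pow]
  let T := {c : P → ℕ // (∀ i, i ∉ D → c i = 0) ∧ ∀ ρ, 0 ≤ h ρ + ∑ i, (c i : ℤ) * lam i ρ}
  have hb : ∀ c : T, ∀ i, c.1 i < ⌊H / δ⌋₊ + 1 := by
    intro c i
    have := QS_sub hδ hd (le_refl (0 : ℝ)) (h := h) (c := c.1) (fun ρ => by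
      have := c.2.2 ρ
      rw [neg_zero]
      exact_mod_cast this) i
    rw [add_zero] at this
    exact Nat.lt_succ_of_le this
  have h1 : Nat.card T ≤ (⌊H / δ⌋₊ + 1) ^ Fintype.card P := by
    have := Nat.card_le_card_of_injective (α := T) (β := P → Fin (⌊H / δ⌋₊ + 1))
      (fun c i => ⟨c.1 i, hb c i⟩) (fun c c' hcc => Subtype.ext (funext fun i => by
        have := congrFun hcc i
        exact congrArg Fin.val this))
    refine this.trans (le_of_eq ?_)
    rw [Nat.card_eq_fintype_card, Fintype.card_fun, Fintype.card_fin]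
  calc ((Nat.card T : ℕ) : ℝ) ≤ (((⌊H / δ⌋₊ + 1) ^ Fintype.card P : ℕ) : ℝ) := by exact_mod_cast h1
    _ = ((⌊H / δ⌋₊ : ℝ) + 1) ^ Fintype.card P := by push_cast; ring
    _ ≤ _ := by
      refine pow_le_pow_left₀ (by positivity) ?_ _
      have h2 : (⌊H / δ⌋₊ : ℝ) ≤ H / δ := Nat.floor_le (by positivity)
      have h3 : 0 ≤ 1 / δ := by positivity
      have h4 : H / δ = H * (1 / δ) := by ring
      nlinarith

theorem vc_diff [DecidableEq P] (hδ : 0 < δ) (hd : ∀ c : P → ℝ, (∀ i, 0 ≤ c i) → c ≠ 0 →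
      ∃ ρ, ∑ i, c i * (lam i ρ : ℝ) ≤ - δ * ∑ i, c i) (D : Finset P) (i : P) (hi : i ∈ D)
    (h : W → ℤ) : vc lam D (h + lam i) = vc lam D h - vc lam (D.erase i) h := by
  rw [vc_eq, vc_eq, vc_eq, eq_sub_iff_add_eq]
  have hsum : ∀ (c : P → ℕ) (ρ : W), ∑ j, (((c + Pi.single i 1 : P → ℕ) j : ℕ) : ℤ) * lam j ρ
      = ∑ j, (c j : ℤ) * lam j ρ + lam i ρ := by
    intro c ρ
    have : ∀ j, (((c + Pi.single i 1 : P → ℕ) j : ℕ) : ℤ) * lam j ρ
        = (c j : ℤ) * lam j ρ + if j = i then lam j ρ else 0 := by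
      intro j
      rw [Pi.add_apply, Pi.single_apply]
      split_ifs <;> push_cast <;> ring
    simp only [this]
    rw [Finset.sum_add_distrib, Finset.sum_ite_eq' Finset.univ i, if_pos (Finset.mem_univ i)]
  have hinj : Function.Injective (fun c : P → ℕ => c + Pi.single i 1) := fun a b hab => by
    simpa using hab
  have hU : QS lam D ∅ h = (fun c : P → ℕ => c + Pi.single i 1) '' QS lam D ∅ (h + lam i)
      ∪ QS lam (D.erase i) ∅ h := by
    ext c
    simp only [QS, Set.mem_union, Set.mem_image, Set.mem_ofPred_eq, Finset.notMem_empty,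
      false_implies, not_false_eq_true, true_implies, true_and, Pi.add_apply]
    constructor
    · rintro ⟨h1, h2⟩
      rcases Nat.eq_zero_or_pos (c i) with h0 | h0
      · right
        refine ⟨fun l hl => ?_, h2⟩
        by_cases hli : l = i
        · rw [hli, h0]
        · exact h1 l fun hlD => hl (Finset.mem_erase.2 ⟨hli, hlD⟩)
      · left
        have hc : (c - Pi.single i 1 : P → ℕ) + Pi.single i 1 = c := by
          funext l
          rw [Pi.add_apply, Pi.sub_apply, Pi.single_apply]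
          split_ifs with hl
          · rw [hl]; omega
          · omega
        refine ⟨c - Pi.single i 1, ⟨fun l hl => ?_, fun ρ => ?_⟩, hc⟩
        · rw [Pi.sub_apply, h1 l hl, Nat.zero_sub]
        · have e1 := hsum (c - Pi.single i 1) ρ
          rw [hc] at e1
          have e2 := h2 ρ
          rw [e1] at e2
          linarith
    · rintro (⟨c', ⟨h1, h2⟩, rfl⟩ | ⟨h1, h2⟩)
      · refine ⟨fun l hl => ?_, fun ρ => ?_⟩
        · rw [Pi.add_apply, h1 l hl, Pi.single_apply, if_neg (fun hh : l = i => hl (by rw [hh]; exact hi)),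
            add_zero]
        · rw [hsum]
          have := h2 ρ
          linarith
      · exact ⟨fun l hl => h1 l fun hh => hl (Finset.mem_of_mem_erase hh), h2⟩
  have hdis : Disjoint ((fun c : P → ℕ => c + Pi.single i 1) '' QS lam D ∅ (h + lam i))
      (QS lam (D.erase i) ∅ h) := by
    rw [Set.disjoint_left]
    rintro c ⟨c', hc', rfl⟩ hc
    have := hc.1 i (Finset.notMem_erase i D)
    simp at this
  rw [hU, Set.ncard_union_eq hdis ((QS_finite hδ hd _ _ _).image _) (QS_finite hδ hd _ _ _),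
    Set.ncard_image_of_injective _ hinj]
  push_cast
  ring

theorem dact_prod [DecidableEq W] (hδ : 0 < δ) (hd : ∀ c : P → ℝ, (∀ i, 0 ≤ c i) → c ≠ 0 →
      ∃ ρ, ∑ i, c i * (lam i ρ : ℝ) ≤ - δ * ∑ i, c i) (D : Finset P) (S : Finset W) :
    ∀ h : W → ℤ, dact W (∏ ρ ∈ S, MvPolynomial.X ρ) (vc lam D) h = ((QS lam D S h).ncard : ℂ) := by
  induction S using Finset.induction_on with
  | empty =>
    intro h
    rw [Finset.prod_empty, map_one]
    exact vc_eq D h
  | insert ρ S hρ ih =>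
    intro h
    rw [Finset.prod_insert hρ, map_mul]
    show dact W (MvPolynomial.X ρ) (dact W (∏ ρ ∈ S, MvPolynomial.X ρ) (vc lam D)) h = _
    rw [dact_X, ih, ih, sub_eq_iff_eq_add]
    have hU : QS lam D S (h + Pi.single ρ 1) = QS lam D (insert ρ S) h ∪ QS lam D S h := by
      ext c
      simp only [QS, Set.mem_union, Set.mem_ofPred_eq, Finset.mem_insert]
      constructor
      · rintro ⟨h1, h2⟩
        have h3 := (h2 ρ).2 hρ
        rw [Pi.add_apply, Pi.single_eq_same] at h3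
        rcases lt_or_ge (h ρ + ∑ i, (c i : ℤ) * lam i ρ) 0 with h4 | h4
        · left
          refine ⟨h1, fun τ => ⟨fun hτ => ?_, fun hτ => ?_⟩⟩
          · rcases hτ with rfl | hτ
            · omega
            · have hne : τ ≠ ρ := fun hh => hρ (hh ▸ hτ)
              have := (h2 τ).1 hτ
              rw [Pi.add_apply, Pi.single_eq_of_ne hne, add_zero] at this
              exact this
          · push Not at hτ
            have := (h2 τ).2 hτ.2
            rw [Pi.add_apply, Pi.single_eq_of_ne hτ.1, add_zero] at this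
            exact this
        · right
          refine ⟨h1, fun τ => ⟨fun hτ => ?_, fun hτ => ?_⟩⟩
          · have hne : τ ≠ ρ := fun hh => hρ (hh ▸ hτ)
            have := (h2 τ).1 hτ
            rw [Pi.add_apply, Pi.single_eq_of_ne hne, add_zero] at this
            exact this
          · by_cases hne : τ = ρ
            · rw [hne]; exact h4
            · have := (h2 τ).2 hτ
              rw [Pi.add_apply, Pi.single_eq_of_ne hne, add_zero] at this
              exact this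
      · rintro (⟨h1, h2⟩ | ⟨h1, h2⟩)
        · refine ⟨h1, fun τ => ⟨fun hτ => ?_, fun hτ => ?_⟩⟩
          · have hne : τ ≠ ρ := fun hh => hρ (hh ▸ hτ)
            rw [Pi.add_apply, Pi.single_eq_of_ne hne, add_zero]
            exact (h2 τ).1 (Or.inr hτ)
          · by_cases hne : τ = ρ
            · subst hne
              rw [Pi.add_apply, Pi.single_eq_same]
              have := (h2 τ).1 (Or.inl rfl)
              omega
            · rw [Pi.add_apply, Pi.single_eq_of_ne hne, add_zero]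
              exact (h2 τ).2 (fun hh => hh.elim hne hτ)
        · refine ⟨h1, fun τ => ⟨fun hτ => ?_, fun hτ => ?_⟩⟩
          · have hne : τ ≠ ρ := fun hh => hρ (hh ▸ hτ)
            rw [Pi.add_apply, Pi.single_eq_of_ne hne, add_zero]
            exact (h2 τ).1 hτ
          · by_cases hne : τ = ρ
            · subst hne
              rw [Pi.add_apply, Pi.single_eq_same]
              have := (h2 τ).2 hτ
              omega
            · rw [Pi.add_apply, Pi.single_eq_of_ne hne, add_zero]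
              exact (h2 τ).2 hτ
    have hdis : Disjoint (QS lam D (insert ρ S) h) (QS lam D S h) := by
      rw [Set.disjoint_left]
      intro c hc hc'
      have h1 := (hc.2 ρ).1 (Finset.mem_insert_self ρ S)
      have h2 := (hc'.2 ρ).2 hρ
      omega
    rw [hU, Set.ncard_union_eq hdis (QS_finite hδ hd _ _ _) (QS_finite hδ hd _ _ _)]
    push_cast
    ring

end

theorem vcnt : VcntStmt := by
  intro P W _ _ _ _ lam hpt
  obtain ⟨δ, hδ, hd⟩ := exists_delta lam hpt
  refine ⟨⟨(1 + 1 / δ) ^ Fintype.card P, fun D h => vc_bound hδ hd D h⟩,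
    fun D i hi h => vc_diff hδ hd D i hi h, fun h hh => ?_, fun g D S hg hface => ?_⟩
  · rw [vc_eq]
    have : QS lam ∅ ∅ h = {0} := by
      ext c
      simp only [QS, Set.mem_ofPred_eq, Finset.notMem_empty, false_implies, not_false_eq_true,
        true_implies, true_and, Set.mem_singleton_iff]
      constructor
      · rintro ⟨h1, -⟩
        exact funext h1
      · rintro rfl
        exact ⟨fun _ => rfl, fun ρ => by simpa using hh ρ⟩
    rw [this, Set.ncard_singleton, Nat.cast_one]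
  · by_contra hcon
    push Not at hcon
    have h1 : ∀ n : ℕ, ∃ M : ℕ, n + 1 ≤ M ∧ ∃ h : W → ℤ,
        (∀ ρ, |(h ρ : ℝ) - M * g ρ| ≤ (1 / ((n : ℝ) + 1)) * M) ∧ (QS lam D S h).Nonempty := by
      intro n
      obtain ⟨M, hM, h, hh, hne⟩ := hcon (1 / ((n : ℝ) + 1)) (by positivity) (n + 1)
      refine ⟨M, hM, h, hh, ?_⟩
      rw [dact_prod hδ hd] at hne
      by_contra hemp
      rw [Set.not_nonempty_iff_eq_empty] at hemp
      rw [hemp, Set.ncard_empty] at hne
      exact hne Nat.cast_zero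
    choose M hM h hh hne using h1
    choose c hc using hne
    have hMpos : ∀ n, (0 : ℝ) < M n := fun n => by
      have := hM n
      exact_mod_cast (by omega : 0 < M n)
    have hM1 : ∀ n, (1 : ℝ) ≤ M n := fun n => by
      have := hM n
      exact_mod_cast (by omega : 1 ≤ M n)
    -- the rescaled points are bounded
    set K : ℝ := (∑ ρ, (|(g ρ : ℝ)| + 1) + 1) / δ with hK
    have hhabs : ∀ n ρ, |(h n ρ : ℝ)| ≤ M n * (|(g ρ : ℝ)| + 1) := by
      intro n ρ
      have e1 := hh n ρ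
      have e2 : (1 / ((n : ℝ) + 1)) * M n ≤ M n := by
        have : 1 / ((n : ℝ) + 1) ≤ 1 := by
          rw [div_le_one (by positivity)]
          have : (0 : ℝ) ≤ n := Nat.cast_nonneg n
          linarith
        nlinarith [hMpos n]
      calc |(h n ρ : ℝ)| = |((h n ρ : ℝ) - M n * g ρ) + M n * g ρ| := by ring_nf
        _ ≤ |(h n ρ : ℝ) - M n * g ρ| + |(M n : ℝ) * g ρ| := abs_add_le _ _
        _ ≤ M n + M n * |(g ρ : ℝ)| := by
          rw [abs_mul, abs_of_pos (hMpos n)]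
          linarith
        _ = _ := by ring
    have hbd : ∀ n i, (c n i : ℝ) / M n ∈ Set.Icc 0 K := by
      intro n i
      refine ⟨div_nonneg (Nat.cast_nonneg _) (hMpos n).le, ?_⟩
      rw [div_le_iff₀ (hMpos n)]
      have e1 := sum_le hδ hd zero_le_one (fun ρ => QS_ge (hc n) ρ)
      have e2 : (c n i : ℝ) ≤ ∑ i, (c n i : ℝ) :=
        Finset.single_le_sum (f := fun i => (c n i : ℝ)) (fun _ _ => Nat.cast_nonneg _)
          (Finset.mem_univ i)
      refine e2.trans (e1.trans ?_)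
      rw [hK, div_mul_eq_mul_div]
      refine div_le_div_of_nonneg_right ?_ hδ.le
      have e3 : ∑ ρ, |(h n ρ : ℝ)| ≤ ∑ ρ, M n * (|(g ρ : ℝ)| + 1) :=
        Finset.sum_le_sum fun ρ _ => hhabs n ρ
      rw [← Finset.mul_sum] at e3
      rw [add_mul, one_mul, mul_comm]
      have := hM1 n
      linarith
    have hcomp : IsCompact (Set.pi Set.univ (fun _ : P => Set.Icc (0 : ℝ) K)) :=
      isCompact_univ_pi fun _ => isCompact_Icc
    obtain ⟨a, ha, φ, hφ, hlim⟩ := hcomp.tendsto_subseq (x := fun n i => (c n i : ℝ) / M n)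
      (fun n i _ => hbd n i)
    have hlim' := tendsto_pi_nhds.1 hlim
    have hinvM : Filter.Tendsto (fun n => 1 / (M (φ n) : ℝ)) Filter.atTop (nhds 0) := by
      have e1 := (tendsto_one_div_add_atTop_nhds_zero_nat (𝕜 := ℝ)).comp hφ.tendsto_atTop
      refine squeeze_zero (fun n => by positivity) (fun n => ?_) e1
      show 1 / (M (φ n) : ℝ) ≤ 1 / (((φ n : ℕ) : ℝ) + 1)
      refine one_div_le_one_div_of_le (by positivity) ?_
      exact_mod_cast hM (φ n)
    have hhlim : ∀ ρ, Filter.Tendsto (fun n => (h (φ n) ρ : ℝ) / M (φ n)) Filter.atTop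
        (nhds (g ρ : ℝ)) := by
      intro ρ
      have e1 := (tendsto_one_div_add_atTop_nhds_zero_nat (𝕜 := ℝ)).comp hφ.tendsto_atTop
      rw [← sub_zero (g ρ : ℝ)] 
      have e2 : Filter.Tendsto (fun n => (h (φ n) ρ : ℝ) / M (φ n) - g ρ) Filter.atTop
          (nhds 0) := by
        refine squeeze_zero_norm (fun n => ?_) e1
        rw [Real.norm_eq_abs]
        have e3 := hh (φ n) ρ
        have e4 : (h (φ n) ρ : ℝ) / M (φ n) - g ρ = ((h (φ n) ρ : ℝ) - M (φ n) * g ρ) / M (φ n) := by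
          field_simp [(hMpos (φ n)).ne']
        rw [e4, abs_div, abs_of_pos (hMpos (φ n)), div_le_iff₀ (hMpos (φ n))]
        exact e3
      have e5 := e2.add_const (g ρ : ℝ)
      simp only [sub_add_cancel, zero_add] at e5
      simpa using e5
    have hsumlim : ∀ ρ, Filter.Tendsto (fun n => (h (φ n) ρ : ℝ) / M (φ n)
        + ∑ i, (c (φ n) i : ℝ) / M (φ n) * (lam i ρ : ℝ)) Filter.atTop
        (nhds ((g ρ : ℝ) + ∑ i, a i * (lam i ρ : ℝ))) := fun ρ =>
      (hhlim ρ).add (tendsto_finsetSum _ fun i _ => (hlim' i).mul_const _)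
    have hre : ∀ n ρ, (h n ρ : ℝ) / M n + ∑ i, (c n i : ℝ) / M n * (lam i ρ : ℝ)
        = (((h n ρ + ∑ i, (c n i : ℤ) * lam i ρ : ℤ)) : ℝ) * (1 / M n) := by
      intro n ρ
      push_cast
      rw [add_mul, Finset.sum_mul]
      congr 1
      · ring
      · exact Finset.sum_congr rfl fun i _ => by ring
    refine hface ⟨a, fun i => (ha i (Set.mem_univ i)).1, fun i hi => ?_, fun ρ => ?_,
      fun ρ hρ => ?_⟩
    · have e1 : ∀ n, (c (φ n) i : ℝ) / M (φ n) = 0 := fun n => by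
        rw [(hc (φ n)).1 i hi, Nat.cast_zero, zero_div]
      refine tendsto_nhds_unique (hlim' i) ?_
      show Filter.Tendsto (fun n => (c (φ n) i : ℝ) / M (φ n)) _ _
      simp only [e1]
      exact tendsto_const_nhds
    · have e1 : Filter.Tendsto (fun n => - (1 / (M (φ n) : ℝ))) Filter.atTop (nhds 0) := by
        simpa using hinvM.neg
      have e2 := le_of_tendsto_of_tendsto' e1 (hsumlim ρ) (fun n => by
        rw [hre]
        have e3 := QS_ge (hc (φ n)) ρ
        have e4 : (0 : ℝ) ≤ 1 / M (φ n) := by positivity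
        push_cast
        nlinarith)
      simpa using e2
    · have e1 : Filter.Tendsto (fun n => - (1 / (M (φ n) : ℝ))) Filter.atTop (nhds 0) := by
        simpa using hinvM.neg
      have e2 : (fun n => (h (φ n) ρ : ℝ) / M (φ n)
        + ∑ i, (c (φ n) i : ℝ) / M (φ n) * (lam i ρ : ℝ)) = fun n => - (1 / (M (φ n) : ℝ)) := by
        funext n
        rw [hre, ((hc (φ n)).2 ρ).1 hρ]
        push_cast
        ring
      have e3 := hsumlim ρ
      rw [e2] at e3
      simpa using tendsto_nhds_unique e3 e1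

end Pool.Agent.Helper30_Simp.H52
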